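import Pool.Agent.Q214.BH.Stm

set_option autoImplicit false

/-!
# Job GEN0 of the project BH (helper214)
-/

namespace Pool.Agent.Q238.BH

open Pool.Agent.Q214.BH Topology Filter Set

/-- generic points stay generic after a translation -/
theorem ev_shift (a : ℤ_[3]) (p : ℤ_[3] → Prop) (h : ∀ᶠ w in residual ℤ_[3], p w) :
    ∀ᶠ w in residual ℤ_[3], p (w + a) := by
  have h1 := (Homeomorph.addRight a).residual_map_eq
  have h2 : ∀ᶠ w in (residual ℤ_[3]).map (Homeomorph.addRight a), p w := by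
    rw [h1]; exact h
  exact h2

theorem isUnit_two : IsUnit (2 : ℤ_[3]) := by
  rw [PadicInt.isUnit_iff]
  have h : ¬ ‖((2 : ℤ) : ℤ_[3])‖ < 1 := by
    rw [PadicInt.norm_int_lt_one_iff_dvd]
    decide
  have h2 : ‖((2 : ℤ) : ℤ_[3])‖ ≤ 1 := PadicInt.norm_le_one _
  have h3 : ‖((2 : ℤ) : ℤ_[3])‖ = 1 := le_antisymm h2 (not_lt.mp h)
  exact_mod_cast h3

/-- every open nonempty set contains a translate by an even natural number -/
theorem exists_even (U : Set ℤ_[3]) (hU : IsOpen U) (hne : U.Nonempty) (w : ℤ_[3]) :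
    ∃ k : ℕ, w + 2 * (k : ℤ_[3]) ∈ U := by
  obtain ⟨v, hv⟩ := hne
  obtain ⟨u, hu⟩ := isUnit_two
  have hc : Continuous fun x : ℤ_[3] => w + 2 * x := by fun_prop
  have ho : IsOpen ((fun x : ℤ_[3] => w + 2 * x) ⁻¹' U) := hU.preimage hc
  have hn : ((fun x : ℤ_[3] => w + 2 * x) ⁻¹' U).Nonempty := by
    refine ⟨(↑(u⁻¹) : ℤ_[3]) * (v - w), ?_⟩
    show w + 2 * ((↑(u⁻¹) : ℤ_[3]) * (v - w)) ∈ U
    rw [← hu, ← mul_assoc, Units.mul_inv, one_mul]
    simpa using hv
  obtain ⟨k, hk⟩ := PadicInt.denseRange_natCast.exists_mem_open ho hn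
  exact ⟨k, hk⟩

theorem gen0 : S_GEN0 := by
  intro m e hm he hinv hcol
  -- invariance under the translation by two
  have h2 : ∀ w, (m (w + 2) = true ∧ e (w + 2) = true) ↔ (m w = true ∧ e w = true) := by
    intro w
    have e1 : w + 2 = w + 1 + 1 := by ring
    have m1 := hinv w
    have m2 := hinv (w + 1)
    rw [e1]
    cases hmw : m w with
    | false => rw [m2, m1, hmw]; simp
    | true =>
      have c1 := hcol w hmw
      have c2 := hcol (w + 1) (by rw [m1, hmw])
      rw [m2, m1, hmw]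
      revert c1 c2
      cases e w <;> cases e (w + 1) <;> cases e (w + 1 + 1) <;> simp
  have h2k : ∀ (k : ℕ) (w : ℤ_[3]), (m (w + 2 * (k : ℤ_[3])) = true ∧
      e (w + 2 * (k : ℤ_[3])) = true) ↔ (m w = true ∧ e w = true) := by
    intro k
    induction k with
    | zero => intro w; simp
    | succ k ih =>
      intro w
      have e1 : w + 2 * ((k + 1 : ℕ) : ℤ_[3]) = (w + 2 * (k : ℤ_[3])) + 2 := by push_cast; ring
      rw [e1, h2, ih]
  letI : MeasurableSpace ℤ_[3] := borel ℤ_[3]
  haveI : BorelSpace ℤ_[3] := ⟨rfl⟩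
  have hE : MeasurableSet {w | m w = true ∧ e w = true} := MeasurableSet.inter hm he
  obtain ⟨U, hU, hEU⟩ := hE.residualEq_isOpen
  have hEU' : ∀ᶠ w in residual ℤ_[3], ((m w = true ∧ e w = true) ↔ w ∈ U) := by
    filter_upwards [hEU] with w hw
    exact iff_of_eq hw
  have hUe : U = ∅ := by
    by_contra hne
    have hne' : U.Nonempty := Set.nonempty_iff_ne_empty.mpr hne
    have hall : ∀ᶠ w in residual ℤ_[3], ∀ k : ℕ, ((m (w + 2 * (k : ℤ_[3])) = true ∧
        e (w + 2 * (k : ℤ_[3])) = true) ↔ w + 2 * (k : ℤ_[3]) ∈ U) := by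
      rw [eventually_countable_forall]
      intro k
      exact ev_shift (2 * (k : ℤ_[3])) _ hEU'
    have hgen : ∀ᶠ w in residual ℤ_[3], m w = true ∧ e w = true := by
      filter_upwards [hall] with w hw
      obtain ⟨k, hk⟩ := exists_even U hU hne' w
      exact (h2k k w).mp ((hw k).mpr hk)
    have hgen1 := ev_shift 1 _ hgen
    obtain ⟨w, hw, hw1⟩ := (dense_of_mem_residual (hgen.and hgen1)).nonempty
    exact hcol w hw.1 (by rw [hw.2, hw1.2])
  have hno : ∀ᶠ w in residual ℤ_[3], ¬ (m w = true ∧ e w = true) := by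
    filter_upwards [hEU'] with w hw
    rw [hw, hUe]
    exact Set.notMem_empty w
  filter_upwards [hno, ev_shift 1 _ hno] with w h0 h1
  by_contra hc
  have hmw : m w = true := by simpa using hc
  have m1 := hinv w
  have c1 := hcol w hmw
  have hew : e w = false := by
    cases h : e w with
    | false => rfl
    | true => exact absurd ⟨hmw, h⟩ h0
  have hew1 : e (w + 1) = true := by
    cases h : e (w + 1) with
    | true => rfl
    | false => exact absurd (by rw [h, hew]) c1
  exact h1 ⟨by rw [m1, hmw], hew1⟩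

end Pool.Agent.Q238.BH
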