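import Pool.Agent.Q214.BH.Stm

set_option autoImplicit false

/-!
# Job GRP of the project BH (helper214)
-/

namespace Pool.Agent.Q238.BH

open Pool.Agent.Q214.BH

/-- the group of the second coordinate -/
abbrev FF : Type := Equiv.Perm (ℤ × ℤ)

/-- `(p, q) ↦ (p + q, q)` -/
def g0 : FF where
  toFun p := (p.1 + p.2, p.2)
  invFun p := (p.1 - p.2, p.2)
  left_inv p := by ext <;> simp
  right_inv p := by ext <;> simp

/-- `(p, q) ↦ (q, p + q)` -/
def u0 : FF where
  toFun p := (p.2, p.1 + p.2)
  invFun p := (p.2 - p.1, p.1)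
  left_inv p := by ext <;> simp
  right_inv p := by ext <;> simp

theorem g0_pow (k : ℕ) (p : ℤ × ℤ) : (g0 ^ k) p = (p.1 + k * p.2, p.2) := by
  induction k with
  | zero => simp
  | succ k ih =>
    rw [pow_succ', Equiv.Perm.mul_apply, ih]
    ext
    · show p.1 + k * p.2 + p.2 = p.1 + ((k + 1 : ℕ) : ℤ) * p.2
      push_cast
      ring
    · rfl

/-- the orbit point -/
def vv (s : List ℕ) : ℤ × ℤ := hw u0 g0 s (1, 2)

theorem vv_nil : vv [] = (1, 2) := rfl

theorem vv_cons (k : ℕ) (s : List ℕ) :
    vv (k :: s) = ((vv s).2, (vv s).1 + (k + 1) * (vv s).2) := by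
  show (u0 * g0 ^ k * hw u0 g0 s) (1, 2) = _
  rw [Equiv.Perm.mul_apply, Equiv.Perm.mul_apply, g0_pow]
  show ((vv s).2, (vv s).1 + k * (vv s).2 + (vv s).2) = _
  ext
  · rfl
  · show (vv s).1 + k * (vv s).2 + (vv s).2 = (vv s).1 + (k + 1) * (vv s).2
    ring

theorem vv_pos (s : List ℕ) : 0 < (vv s).1 ∧ (vv s).1 < (vv s).2 := by
  induction s with
  | nil => rw [vv_nil]; constructor <;> norm_num
  | cons k s ih =>
    rw [vv_cons]
    have hk : (0 : ℤ) ≤ k := Int.natCast_nonneg k
    constructor
    · show 0 < (vv s).2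
      linarith [ih.1, ih.2]
    · show (vv s).2 < (vv s).1 + (k + 1) * (vv s).2
      nlinarith [ih.1, ih.2, mul_nonneg hk (le_of_lt (ih.1.trans ih.2))]

theorem vv_inj (s : List ℕ) : ∀ s' : List ℕ, vv s = vv s' → s = s' := by
  induction s with
  | nil =>
    intro s' h
    cases s' with
    | nil => rfl
    | cons k s' =>
      exfalso
      rw [vv_nil, vv_cons] at h
      have h1 := congrArg Prod.fst h
      have h2 := vv_pos s'
      simp only at h1
      omega
  | cons k s ih =>
    intro s' h
    cases s' with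
    | nil =>
      exfalso
      rw [vv_nil, vv_cons] at h
      have h1 := congrArg Prod.fst h
      have h2 := vv_pos s
      simp only at h1
      omega
    | cons k' s' =>
      rw [vv_cons, vv_cons] at h
      have h1 := congrArg Prod.fst h
      have h2 := congrArg Prod.snd h
      simp only at h1 h2
      have p1 := vv_pos s
      have p2 := vv_pos s'
      rw [h1] at h2 p1
      have hk : (k : ℤ) = k' := by
        rcases lt_trichotomy (k : ℤ) k' with hlt | heq | hgt
        · exfalso
          have : (k : ℤ) + 1 ≤ k' := hlt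
          nlinarith [p1.1, p1.2, p2.1, p2.2]
        · exact heq
        · exfalso
          have : (k' : ℤ) + 1 ≤ k := hgt
          nlinarith [p1.1, p1.2, p2.1, p2.2]
      have hk' : k = k' := by exact_mod_cast hk
      have h3 : (vv s).1 = (vv s').1 := by
        rw [hk] at h2
        linarith
      rw [hk', ih s' (Prod.ext h3 h1)]

theorem hw0_inj : Function.Injective (hw u0 g0) := by
  intro s s' h
  exact vv_inj s s' (by unfold vv; rw [h])

section

variable {α : Type} (t : BC α)

/-- the inner nodes -/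
abbrev TT : Type := {s : List ℕ // (t.sub s).isNd = true}

/-- the space -/
abbrev Om : Type := TT t × FF × Fin 3

/-- left translations -/
def tr (a : FF) : Equiv.Perm (Om t) where
  toFun p := (p.1, a * p.2.1, p.2.2)
  invFun p := (p.1, a⁻¹ * p.2.1, p.2.2)
  left_inv p := by ext <;> simp
  right_inv p := by ext <;> simp

open Classical in
/-- local swaps -/
noncomputable def tw (a b : Fin 3) (P : TT t → FF → Prop) : Equiv.Perm (Om t) where
  toFun p := (p.1, p.2.1, if P p.1 p.2.1 then Equiv.swap a b p.2.2 else p.2.2)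
  invFun p := (p.1, p.2.1, if P p.1 p.2.1 then Equiv.swap a b p.2.2 else p.2.2)
  left_inv p := by
    by_cases h : P p.1 p.2.1
    · simp [h]
    · simp [h]
  right_inv p := by
    by_cases h : P p.1 p.2.1
    · simp [h]
    · simp [h]

open Classical in
theorem tw_apply (a b : Fin 3) (P : TT t → FF → Prop) (p : Om t) :
    tw t a b P p = (p.1, p.2.1, if P p.1 p.2.1 then Equiv.swap a b p.2.2 else p.2.2) := rfl

theorem tr_apply (a : FF) (p : Om t) : tr t a p = (p.1, a * p.2.1, p.2.2) := rfl

theorem tr_mul (a b : FF) : tr t (a * b) = tr t a * tr t b := by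
  refine Equiv.ext fun p => ?_
  rw [Equiv.Perm.mul_apply, tr_apply, tr_apply, tr_apply, mul_assoc]

theorem tr_one : tr t 1 = 1 := by
  refine Equiv.ext fun p => ?_
  rw [tr_apply, one_mul]
  rfl

/-- as a homomorphism -/
def trH : FF →* Equiv.Perm (Om t) where
  toFun := tr t
  map_one' := tr_one t
  map_mul' := tr_mul t

/-- the involution `c` -/
noncomputable def cP : Equiv.Perm (Om t) := tw t 0 1 fun _ x => x = 1

/-- the involution `d` -/
noncomputable def dP : Equiv.Perm (Om t) := tw t 1 2 fun s x => x = (hw u0 g0 s.1)⁻¹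

theorem tw_mul_self (a b : Fin 3) (P : TT t → FF → Prop) : tw t a b P * tw t a b P = 1 :=
  Equiv.ext fun p => (tw t a b P).left_inv p

open Classical in
theorem tw_conj (a b : Fin 3) (x : FF) :
    (tr t x)⁻¹ * tw t a b (fun _ y => y = 1) * tr t x = tw t a b fun _ y => y = x⁻¹ := by
  refine Equiv.ext fun p => ?_
  rw [Equiv.Perm.mul_apply, Equiv.Perm.mul_apply, Equiv.Perm.inv_eq_iff_eq, tr_apply, tw_apply,
    tr_apply, tw_apply]
  show (p.1, x * p.2.1, if x * p.2.1 = 1 then Equiv.swap a b p.2.2 else p.2.2) =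
    (p.1, x * p.2.1, if p.2.1 = x⁻¹ then Equiv.swap a b p.2.2 else p.2.2)
  by_cases h : x * p.2.1 = 1
  · rw [if_pos h, if_pos (mul_eq_one_iff_eq_inv'.mp h)]
  · rw [if_neg h, if_neg (fun h' => h (mul_eq_one_iff_eq_inv'.mpr h'))]

theorem tw_comm (a b a' b' : Fin 3) (P Q : TT t → FF → Prop) (h : ∀ s x, P s x → ¬ Q s x) :
    Commute (tw t a b P) (tw t a' b' Q) := by
  refine Equiv.ext fun p => ?_
  rw [Equiv.Perm.mul_apply, Equiv.Perm.mul_apply, tw_apply, tw_apply, tw_apply, tw_apply]
  by_cases hP : P p.1 p.2.1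
  · have hQ := h _ _ hP
    simp [hP, hQ]
  · simp [hP]

theorem hw_map {Γ Δ : Type} [Group Γ] [Group Δ] (φ : Γ →* Δ) (u g : Γ) (s : List ℕ) :
    φ (hw u g s) = hw (φ u) (φ g) s := by
  induction s with
  | nil => exact map_one φ
  | cons k s ih =>
    show φ (u * g ^ k * hw u g s) = φ u * φ g ^ k * hw (φ u) (φ g) s
    rw [map_mul, map_mul, map_pow, ih]

/-- the generating set -/
noncomputable def gens : Set (Equiv.Perm (Om t)) := {tr t u0, tr t g0, cP t, dP t}

end

theorem grp : S_GRP := by
  intro α t ht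
  let P : Type := Equiv.Perm (Om t)
  let H0 : Subgroup P := Subgroup.closure (gens t)
  have hU : tr t u0 ∈ H0 := Subgroup.subset_closure (by simp [gens])
  have hG : tr t g0 ∈ H0 := Subgroup.subset_closure (by simp [gens])
  have hC : cP t ∈ H0 := Subgroup.subset_closure (by simp [gens])
  have hD : dP t ∈ H0 := Subgroup.subset_closure (by simp [gens])
  have hcount : Countable H0 := by
    have h1 : (FreeGroup.lift (fun i : Fin 4 =>
        (![tr t u0, tr t g0, cP t, dP t] : Fin 4 → P) i)).range = H0 := by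
      rw [FreeGroup.range_lift_eq_closure]
      show Subgroup.closure _ = Subgroup.closure _
      refine congrArg _ (Set.ext fun z => ?_)
      unfold gens
      constructor
      · rintro ⟨i, rfl⟩
        fin_cases i
        · exact Or.inl rfl
        · exact Or.inr (Or.inl rfl)
        · exact Or.inr (Or.inr (Or.inl rfl))
        · exact Or.inr (Or.inr (Or.inr rfl))
      · rintro (rfl | rfl | rfl | rfl)
        · exact ⟨0, rfl⟩
        · exact ⟨1, rfl⟩
        · exact ⟨2, rfl⟩
        · exact ⟨3, rfl⟩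
    rw [← h1]
    exact (Set.countable_range _).to_subtype
  let H : Type := H0 × Multiplicative (ZMod 2)
  let u : H := (⟨tr t u0, hU⟩, 1)
  let g : H := (⟨tr t g0, hG⟩, 1)
  let c : H := (⟨cP t, hC⟩, 1)
  let d : H := (⟨dP t, hD⟩, 1)
  let y : H := (1, Multiplicative.ofAdd 1)
  let φ : H →* P := H0.subtype.comp (MonoidHom.fst H0 (Multiplicative (ZMod 2)))
  have hφ : ∀ a b : H, φ a = φ b → a.2 = b.2 → a = b := fun a b h1 h2 =>
    Prod.ext (Subtype.ext h1) h2
  have hφhw : ∀ s, φ (hw u g s) = tr t (hw u0 g0 s) := by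
    intro s
    rw [hw_map]
    exact (hw_map (trH t) u0 g0 s).symm
  refine ⟨H, inferInstance, inferInstance, u, g, c, d, y,
    MonoidHom.snd H0 (Multiplicative (ZMod 2)), ?_⟩
  refine ⟨?_, ?_, ?_, ?_, rfl, rfl, rfl, rfl, ?_⟩
  · intro s hs
    refine hφ _ _ ?_ (mul_comm _ _)
    have e1 : φ ((hw u g s)⁻¹ * c * hw u g s) = tw t 0 1 fun _ y => y = (hw u0 g0 s)⁻¹ := by
      rw [map_mul, map_mul, map_inv, hφhw]
      exact tw_conj t 0 1 _
    rw [map_mul φ d, map_mul φ _ d, e1]
    refine (tw_comm t 1 2 0 1 _ _ ?_).eq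
    intro s' x hx hx'
    have e2 : hw u0 g0 s'.1 = hw u0 g0 s := by
      rw [hx] at hx'
      exact inv_injective hx'
    have e3 := hw0_inj e2
    have := s'.2
    rw [e3, hs] at this
    exact absurd this (by decide)
  · refine hφ _ _ ?_ (one_mul 1)
    exact tw_mul_self t 0 1 _
  · intro s hs m hm hmem
    -- elements of the closure preserve the third coordinate two
    have k1 : ∀ z ∈ Subgroup.closure {u, g, c}, ∀ p : Om t, (φ z p).2.2 = 2 ↔ p.2.2 = 2 := by
      intro z hz
      induction hz using Subgroup.closure_induction with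
      | mem z hz =>
        intro p
        rcases hz with rfl | rfl | rfl
        · exact Iff.rfl
        · exact Iff.rfl
        · show (cP t p).2.2 = 2 ↔ p.2.2 = 2
          unfold cP
          rw [tw_apply]
          by_cases h : p.2.1 = 1
          · simp only [h, if_true]
            generalize p.2.2 = i
            revert i
            decide
          · simp only [h, if_false]
      | one => intro p; exact Iff.rfl
      | mul a b _ _ ha hb =>
        intro p
        rw [map_mul, Equiv.Perm.mul_apply, ha, hb]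
      | inv a _ ha =>
        intro p
        have := ha ((φ a)⁻¹ p)
        rw [← Equiv.Perm.mul_apply, mul_inv_cancel, Equiv.Perm.one_apply] at this
        rw [map_inv]
        exact this.symm
    have k2 : ∀ m ∈ Submonoid.closure {g⁻¹, u⁻¹}, ∀ p : Om t, (φ m p).2.2 = p.2.2 := by
      intro m hm
      induction hm using Submonoid.closure_induction with
      | mem z hz =>
        intro p
        rcases hz with rfl | rfl
        · rfl
        · rfl
      | one => intro p; rfl
      | mul a b _ _ ha hb =>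
        intro p
        rw [map_mul, Equiv.Perm.mul_apply, ha, hb]
    have k3 := k1 _ hmem (⟨s, hs⟩, (hw u0 g0 s)⁻¹, 2)
    rw [map_mul, map_mul, map_mul, map_mul, map_inv, hφhw] at k3
    change (φ d (φ m (φ c (tr t (hw u0 g0 s)
      ((φ d)⁻¹ (⟨s, hs⟩, (hw u0 g0 s)⁻¹, 2)))))).2.2 = 2 ↔ (2 : Fin 3) = 2 at k3
    have e1 : (φ d)⁻¹ (⟨s, hs⟩, (hw u0 g0 s)⁻¹, 2) = (⟨s, hs⟩, (hw u0 g0 s)⁻¹, 1) := by
      rw [Equiv.Perm.inv_eq_iff_eq]
      show _ = dP t _
      unfold dP
      rw [tw_apply]
      simp
    rw [e1, tr_apply] at k3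
    have e2 : φ c (⟨s, hs⟩, hw u0 g0 s * (hw u0 g0 s)⁻¹, 1) = (⟨s, hs⟩, 1, 0) := by
      show cP t _ = _
      unfold cP
      rw [tw_apply]
      simp
    simp only at k3
    rw [e2] at k3
    have e3 := k2 m hm (⟨s, hs⟩, 1, 0)
    have e4 : (φ d (φ m (⟨s, hs⟩, 1, 0))).2.2 = 0 := by
      show (dP t (φ m (⟨s, hs⟩, 1, 0))).2.2 = 0
      unfold dP
      rw [tw_apply]
      simp only [e3]
      split_ifs
      · decide
      · rfl
    rw [e4] at k3
    exact absurd (k3.mpr trivial) (by decide)
  · intro s s' h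
    apply hw0_inj
    have h1 := congrArg φ h
    rw [hφhw, hφhw] at h1
    have h2 := congrArg (fun π : P => (π (⟨[], ht⟩, 1, 0)).2.1) h1
    change hw u0 g0 s * 1 = hw u0 g0 s' * 1 at h2
    rwa [mul_one, mul_one] at h2
  · show Multiplicative.ofAdd (1 : ZMod 2) ≠ 1
    decide

end Pool.Agent.Q238.BH
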