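import Pool.Agent.Q214.BH.Stm

set_option autoImplicit false

/-!
# Job H125 of the project BH (helper214)
-/

namespace Pool.Agent.Q238.BH

open Pool.Agent.Q214.BH Topology TopologicalSpace Set

theorem h1 : S_H1 := by
  intro X _ ξ A h
  induction h with
  | of_isOpen U hU => exact MeasurableSpace.measurableSet_generateFrom hU
  | of_union ξ A η _ _ _ ih =>
    exact MeasurableSet.iUnion fun n => MeasurableSet.compl (ih n)

theorem h2 : S_H2 := by
  intro X Y _ _ f hf ξ A h
  induction h with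
  | of_isOpen U hU => exact Sigma0.of_isOpen _ (hU.preimage hf)
  | of_union ξ A η h1 h2 _ ih =>
    have e : f ⁻¹' (⋃ n, (A n)ᶜ) = ⋃ n, (f ⁻¹' (A n))ᶜ := by
      rw [preimage_iUnion]
      rfl
    rw [e]
    exact Sigma0.of_union ξ _ η h1 h2 ih

/-- the clopen sets are a basis of the Baire space -/
theorem basis_clopen : IsTopologicalBasis {s : Set (ℕ → ℕ) | IsClopen s} := by
  have hb := isTopologicalBasis_pi (fun _ : ℕ => isTopologicalBasis_opens (α := ℕ))
  refine isTopologicalBasis_of_isOpen_of_nhds (fun u hu => hu.isOpen) ?_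
  intro a u ha hu
  obtain ⟨v, hv, hav, hvu⟩ := hb.exists_subset_of_mem_open ha hu
  obtain ⟨U, F, _, rfl⟩ := hv
  refine ⟨_, ⟨?_, ?_⟩, hav, hvu⟩
  · exact isClosed_set_pi fun i _ => isClosed_discrete _
  · exact isOpen_set_pi F.finite_toSet fun i _ => isOpen_discrete _

theorem h5 : S_H5 := by
  intro C hC
  rw [basis_clopen.borel_eq_generateFrom] at hC
  induction C, hC using MeasurableSpace.generateFrom_induction with
  | hC s hs _ => exact ⟨BC.lf ⟨s, hs⟩, fun z => Iff.rfl⟩
  | empty => exact ⟨BC.lf ⊥, fun z => Iff.rfl⟩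
  | compl s _ ih =>
    obtain ⟨t, ht⟩ := ih
    refine ⟨BC.nd fun _ => t, fun z => ?_⟩
    show z ∉ s ↔ ¬ ∃ _ : ℕ, t.val z
    rw [ht z, exists_const]
  | iUnion s _ ih =>
    choose t ht using ih
    refine ⟨BC.nd fun _ => BC.nd fun n => t n, fun z => ?_⟩
    show z ∈ ⋃ n, s n ↔ ¬ ∃ _ : ℕ, ¬ ∃ n, (t n).val z
    rw [exists_const, not_not, mem_iUnion]
    exact exists_congr fun n => ht n z

end Pool.Agent.Q238.BH
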