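import Pool.Agent.Q214.BH.Stm

set_option autoImplicit false

/-!
# Job H3 of the project BH (helper214)
-/

namespace Pool.Agent.Q238.BH

open Pool.Agent.Q214.BH Topology TopologicalSpace Set

/-- inversion -/
theorem sig_inv {X : Type} [TopologicalSpace X] {ξ : Ordinal.{0}} {A : Set X} (h : Sigma0 ξ A) :
    (ξ = 1 ∧ IsOpen A) ∨ ∃ (B : ℕ → Set X) (η : ℕ → Ordinal.{0}), (∀ n, 1 ≤ η n) ∧
      (∀ n, η n < ξ) ∧ (∀ n, Sigma0 (η n) (B n)) ∧ A = ⋃ n, (B n)ᶜ := by
  cases h with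
  | of_isOpen U hU => exact Or.inl ⟨rfl, hU⟩
  | of_union ξ B η h1 h2 h3 => exact Or.inr ⟨B, η, h1, h2, h3, rfl⟩

/-- the initial segments of countable ordinals are countable -/
theorem countable_below (ξ : Ordinal.{0}) (h : ξ < Ordinal.omega 1) :
    Countable {η : Ordinal.{0} // 1 ≤ η ∧ η < ξ} := by
  have h1 : (Set.Iio ξ).Countable := by
    rw [← Cardinal.le_aleph0_iff_set_countable, Cardinal.mk_Iio_ordinal,
      Cardinal.lift_le_aleph0]
    exact Cardinal.lt_aleph_one_iff.mp (Cardinal.lt_omega_iff_card_lt.mp h)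
  exact (h1.mono fun η hη => hη.2).to_subtype

/-- a universal set -/
def Univ (ξ : Ordinal.{0}) (U : Set ((ℕ → ℕ) × (ℕ → ℕ))) : Prop :=
  MeasurableSet U ∧ ∀ A : Set (ℕ → ℕ), Sigma0 ξ A → ∃ c, ∀ x, x ∈ A ↔ (c, x) ∈ U

theorem univ_one : ∃ U, Univ 1 U := by
  have hBc : (countableBasis (ℕ → ℕ)).Countable := countable_countableBasis _
  have hBn : (countableBasis (ℕ → ℕ)).Nonempty := by
    have := (isBasis_countableBasis (ℕ → ℕ)).exists_subset_of_mem_open
      (mem_univ (fun _ : ℕ => 0)) isOpen_univ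
    obtain ⟨v, hv, _⟩ := this
    exact ⟨v, hv⟩
  obtain ⟨e, he⟩ := hBc.exists_eq_range hBn
  let b : ℕ → Set (ℕ → ℕ) := fun n => Nat.casesOn n ∅ e
  have hb : ∀ n, MeasurableSet (b n) := by
    intro n
    cases n with
    | zero => exact MeasurableSet.empty
    | succ n =>
      have : IsOpen (e n) := isOpen_of_mem_countableBasis (he ▸ mem_range_self n)
      exact this.measurableSet
  refine ⟨{p | ∃ n, p.2 ∈ b (p.1 n)}, ?_, ?_⟩
  · have h1 : {p : (ℕ → ℕ) × (ℕ → ℕ) | ∃ n, p.2 ∈ b (p.1 n)} =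
        ⋃ n, ⋃ k, ({p | p.1 n = k} ∩ {p | p.2 ∈ b k}) := by
      ext p
      simp
    rw [h1]
    refine MeasurableSet.iUnion fun n => MeasurableSet.iUnion fun k => MeasurableSet.inter ?_ ?_
    · have hm : Measurable fun p : (ℕ → ℕ) × (ℕ → ℕ) => p.1 n :=
        (measurable_pi_apply n).comp measurable_fst
      exact hm (measurableSet_singleton k)
    · exact measurable_snd (hb k)
  · intro A hA
    have hAo : IsOpen A := by
      rcases sig_inv hA with ⟨_, h⟩ | ⟨B, η, h1, h2, _, _⟩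
      · exact h
      · exact absurd (lt_of_le_of_lt (h1 0) (h2 0)) (lt_irrefl _)
    classical
    refine ⟨fun n => if e n ⊆ A then n + 1 else 0, fun x => ?_⟩
    constructor
    · intro hx
      obtain ⟨v, hv, hxv, hvA⟩ :=
        (isBasis_countableBasis (ℕ → ℕ)).exists_subset_of_mem_open hx hAo
      rw [he] at hv
      obtain ⟨n, rfl⟩ := hv
      refine ⟨n, ?_⟩
      show x ∈ b (if e n ⊆ A then n + 1 else 0)
      rw [if_pos hvA]
      exact hxv
    · rintro ⟨n, hn⟩
      have hn' : x ∈ b (if e n ⊆ A then n + 1 else 0) := hn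
      by_cases h : e n ⊆ A
      · rw [if_pos h] at hn'
        exact h hn'
      · rw [if_neg h] at hn'
        exact absurd hn' (notMem_empty x)

theorem univ_step (ξ : Ordinal.{0}) (h1 : 1 < ξ)
    (hc : Countable {η : Ordinal.{0} // 1 ≤ η ∧ η < ξ})
    (ih : ∀ η : Ordinal.{0}, 1 ≤ η → η < ξ → ∃ U, Univ η U) : ∃ U, Univ ξ U := by
  have hne : Nonempty {η : Ordinal.{0} // 1 ≤ η ∧ η < ξ} := ⟨⟨1, le_refl _, h1⟩⟩
  obtain ⟨f, hf⟩ := exists_surjective_nat {η : Ordinal.{0} // 1 ≤ η ∧ η < ξ}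
  choose U hU using fun n : ℕ => ih (f n).1 (f n).2.1 (f n).2.2
  refine ⟨{p | ∃ n, ((fun m => p.1 (Nat.pair n (m + 1))), p.2) ∉ U (p.1 (Nat.pair n 0))}, ?_, ?_⟩
  · have e1 : {p : (ℕ → ℕ) × (ℕ → ℕ) |
        ∃ n, ((fun m => p.1 (Nat.pair n (m + 1))), p.2) ∉ U (p.1 (Nat.pair n 0))} =
        ⋃ n, ⋃ k, ({p | p.1 (Nat.pair n 0) = k} ∩
          {p | ((fun m => p.1 (Nat.pair n (m + 1))), p.2) ∈ (U k)ᶜ}) := by
      ext p
      simp
    rw [e1]
    refine MeasurableSet.iUnion fun n => MeasurableSet.iUnion fun k => MeasurableSet.inter ?_ ?_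
    · have hm : Measurable fun p : (ℕ → ℕ) × (ℕ → ℕ) => p.1 (Nat.pair n 0) :=
        (measurable_pi_apply (Nat.pair n 0)).comp measurable_fst
      exact hm (measurableSet_singleton k)
    · have hm : Measurable fun p : (ℕ → ℕ) × (ℕ → ℕ) =>
          ((fun m => p.1 (Nat.pair n (m + 1))), p.2) := by
        refine Measurable.prodMk (measurable_pi_lambda _ fun m => ?_) measurable_snd
        exact (measurable_pi_apply (Nat.pair n (m + 1))).comp measurable_fst
      exact hm (hU k).1.compl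
  · intro A hA
    rcases sig_inv hA with ⟨h, _⟩ | ⟨B, η, k1, k2, k3, rfl⟩
    · exact absurd h h1.ne'
    · choose k hk using fun n => hf ⟨η n, k1 n, k2 n⟩
      have hd : ∀ n, ∃ c, ∀ x, x ∈ B n ↔ (c, x) ∈ U (k n) := by
        intro n
        apply (hU (k n)).2
        rw [hk n]
        exact k3 n
      choose d hd using hd
      refine ⟨fun j => Nat.casesOn (Nat.unpair j).2 (k (Nat.unpair j).1)
        (fun m => d (Nat.unpair j).1 m), fun x => ?_⟩
      simp only [mem_iUnion, mem_compl_iff, mem_ofPred_eq, Nat.unpair_pair]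
      exact exists_congr fun n => not_congr (hd n x)

theorem univ_all (ξ : Ordinal.{0}) : 1 ≤ ξ → ξ < Ordinal.omega 1 → ∃ U, Univ ξ U := by
  induction ξ using WellFoundedLT.induction with
  | ind ξ ih =>
    intro h1 h2
    rcases eq_or_lt_of_le h1 with h | h
    · rw [← h]
      exact univ_one
    · exact univ_step ξ h (countable_below ξ h2) fun η k1 k2 => ih η k2 k1 (k2.trans h2)

theorem h3 (_k1 : S_H1) (_k2 : S_H2) : S_H3 := by
  intro ξ hξ
  have hb : borel (ℕ → ℕ) = MeasurableSpace.pi := (BorelSpace.measurable_eq).symm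
  rw [hb]
  rcases eq_or_ne ξ 0 with h0 | h0
  · refine ⟨∅, MeasurableSet.empty, ?_⟩
    intro h
    rcases sig_inv h with ⟨h, _⟩ | ⟨B, η, k1, k2, _, _⟩
    · rw [h0] at h
      exact zero_ne_one h
    · have := k2 0
      rw [h0] at this
      exact not_lt_bot this
  · obtain ⟨U, hU, hUu⟩ := univ_all ξ (Order.one_le_iff_ne_zero.mpr h0) hξ
    refine ⟨{x | (x, x) ∉ U}, ?_, ?_⟩
    · have hm : Measurable fun x : ℕ → ℕ => (x, x) := measurable_id.prodMk measurable_id
      exact hm hU.compl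
    · intro h
      obtain ⟨c, hc⟩ := hUu _ h
      have := hc c
      by_cases hcc : (c, c) ∈ U
      · exact (this.mpr hcc) hcc
      · exact hcc (this.mp hcc)

end Pool.Agent.Q238.BH
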