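import Pool.Agent.Q214.BH.Stm

set_option autoImplicit false

/-!
# Job H4 of the project BH (helper214)
-/

namespace Pool.Agent.Q238.BH

open Pool.Agent.Q214.BH Topology TopologicalSpace Set Filter

/-- the category quantifier of a countable union of complements -/
theorem meagre_iff {W : Type} [TopologicalSpace W] [SecondCountableTopology W] [BaireSpace W]
    (E : ℕ → Set W) (hE : ∀ n, @MeasurableSet W (borel W) (E n)) (V : Set W) (hV : IsOpen V) :
    ¬ IsMeagre ((⋃ n, (E n)ᶜ) ∩ V) ↔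
      ∃ n, ∃ V' ∈ countableBasis W, V'.Nonempty ∧ V' ⊆ V ∧ IsMeagre (E n ∩ V') := by
  constructor
  · intro h
    rw [iUnion_inter] at h
    have h' : ∃ n, ¬ IsMeagre ((E n)ᶜ ∩ V) := by
      by_contra hc
      push Not at hc
      exact h (isMeagre_iUnion hc)
    obtain ⟨n, hn⟩ := h'
    let _ : MeasurableSpace W := borel W
    have _ : BorelSpace W := ⟨rfl⟩
    obtain ⟨O, hO, hEO⟩ := MeasurableSet.residualEq_isOpen (hE n)
    have hcl : closure O =ᶠ[residual W] O := closure_residualEq hO.isLocallyClosed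
    have hne : (V \ closure O).Nonempty := by
      by_contra hc
      rw [not_nonempty_iff_eq_empty, diff_eq_empty] at hc
      apply hn
      show ((E n)ᶜ ∩ V)ᶜ ∈ residual W
      filter_upwards [hEO, hcl] with w h1 h2
      rintro ⟨h3, h4⟩
      apply h3
      have h5 : w ∈ closure O := hc h4
      have h6 : w ∈ O := by
        have := iff_of_eq h2
        exact this.mp h5
      have := iff_of_eq h1
      exact this.mpr h6
    obtain ⟨v, hv⟩ := hne
    have hop : IsOpen (V \ closure O) := hV.sdiff isClosed_closure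
    obtain ⟨V', hV', hvV', hsub⟩ :=
      (isBasis_countableBasis W).exists_subset_of_mem_open hv hop
    refine ⟨n, V', hV', ⟨v, hvV'⟩, fun w hw => (hsub hw).1, ?_⟩
    show (E n ∩ V')ᶜ ∈ residual W
    filter_upwards [hEO] with w h1
    rintro ⟨h3, h4⟩
    have h5 : w ∈ O := (iff_of_eq h1).mp h3
    exact (hsub h4).2 (subset_closure h5)
  · rintro ⟨n, V', hV', hne, hsub, hm⟩ hc
    have hV'o : IsOpen V' := isOpen_of_mem_countableBasis hV'
    apply not_isMeagre_of_isOpen hV'o hne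
    have h1 : IsMeagre ((E n)ᶜ ∩ V') := by
      refine hc.mono ?_
      intro w hw
      exact ⟨mem_iUnion.mpr ⟨n, hw.1⟩, hsub hw.2⟩
    refine (hm.union h1).mono ?_
    intro w hw
    by_cases hwE : w ∈ E n
    · exact Or.inl ⟨hwE, hw⟩
    · exact Or.inr ⟨hwE, hw⟩

theorem h4_aux (k1 : S_H1) (k2 : S_H2) (Z W : Type) [TopologicalSpace Z] [TopologicalSpace W]
    [SecondCountableTopology W] [BaireSpace W] (ξ : Ordinal.{0}) (A : Set (Z × W))
    (h : Sigma0 ξ A) : ∀ V : Set W, IsOpen V →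
      Sigma0 ξ {z : Z | ¬ IsMeagre ({w : W | (z, w) ∈ A} ∩ V)} := by
  induction h with
  | of_isOpen U hU =>
    intro V hV
    have e : {z : Z | ¬ IsMeagre ({w : W | (z, w) ∈ U} ∩ V)} =
        Prod.fst '' (U ∩ (univ ×ˢ V)) := by
      ext z
      constructor
      · intro hz
        obtain ⟨w, hw, hwV⟩ := nonempty_of_not_isMeagre hz
        exact ⟨(z, w), ⟨hw, ⟨mem_univ _, hwV⟩⟩, rfl⟩
      · rintro ⟨⟨z', w⟩, ⟨hw, ⟨_, hwV⟩⟩, rfl⟩
        have ho : IsOpen ({w : W | (z', w) ∈ U} ∩ V) :=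
          (hU.preimage (by fun_prop : Continuous fun w : W => (z', w))).inter hV
        exact not_isMeagre_of_isOpen ho ⟨w, hw, hwV⟩
    rw [e]
    exact Sigma0.of_isOpen _ (isOpenMap_fst _ (hU.inter (isOpen_univ.prod hV)))
  | of_union ξ A η hη1 hη2 hA ih =>
    intro V hV
    let P : Type := {p : ℕ × Set W // p.2 ∈ countableBasis W ∧ p.2.Nonempty ∧ p.2 ⊆ V}
    have hPc : Countable P := by
      have hc : ({p : ℕ × Set W | p.2 ∈ countableBasis W ∧ p.2.Nonempty ∧ p.2 ⊆ V}).Countable := by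
        refine Set.Countable.mono ?_ ((countable_univ (α := ℕ)).prod (countable_countableBasis W))
        rintro ⟨n, V'⟩ hp
        exact ⟨mem_univ _, hp.1⟩
      exact hc.to_subtype
    have key : ∀ z : Z, ¬ IsMeagre ({w : W | (z, w) ∈ ⋃ n, (A n)ᶜ} ∩ V) ↔
        ∃ p : P, ¬ (¬ IsMeagre ({w : W | (z, w) ∈ A p.1.1} ∩ p.1.2)) := by
      intro z
      have e1 : {w : W | (z, w) ∈ ⋃ n, (A n)ᶜ} = ⋃ n, ({w : W | (z, w) ∈ A n})ᶜ := by
        ext w
        simp
      rw [e1, meagre_iff (fun n => {w : W | (z, w) ∈ A n}) ?_ V hV]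
      · constructor
        · rintro ⟨n, V', h1, h2, h3, h4⟩
          exact ⟨⟨(n, V'), h1, h2, h3⟩, not_not.mpr h4⟩
        · rintro ⟨⟨⟨n, V'⟩, h1, h2, h3⟩, h4⟩
          exact ⟨n, V', h1, h2, h3, not_not.mp h4⟩
      · intro n
        exact k1 W (η n) _ (k2 W (Z × W) (fun w => (z, w)) (by fun_prop) (η n) (A n) (hA n))
    rcases isEmpty_or_nonempty P with hP | hP
    · have e : {z : Z | ¬ IsMeagre ({w : W | (z, w) ∈ ⋃ n, (A n)ᶜ} ∩ V)} =
          ⋃ _ : ℕ, (univ : Set Z)ᶜ := by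
        ext z
        rw [mem_setOf_eq, key z]
        simp only [compl_univ, iUnion_empty, mem_empty_iff_false, iff_false]
        rintro ⟨p, _⟩
        exact hP.elim p
      rw [e]
      exact Sigma0.of_union ξ _ (fun _ => 1) (fun _ => le_refl _)
        (fun _ => lt_of_le_of_lt (hη1 0) (hη2 0)) (fun _ => Sigma0.of_isOpen _ isOpen_univ)
    · obtain ⟨f, hf⟩ := exists_surjective_nat P
      have e : {z : Z | ¬ IsMeagre ({w : W | (z, w) ∈ ⋃ n, (A n)ᶜ} ∩ V)} =
          ⋃ n : ℕ, ({z : Z | ¬ IsMeagre ({w : W | (z, w) ∈ A (f n).1.1} ∩ (f n).1.2)})ᶜ := by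
        ext z
        rw [mem_setOf_eq, key z, mem_iUnion]
        constructor
        · rintro ⟨p, hp⟩
          obtain ⟨n, rfl⟩ := hf p
          exact ⟨n, hp⟩
        · rintro ⟨n, hn⟩
          exact ⟨f n, hn⟩
      rw [e]
      exact Sigma0.of_union ξ _ (fun n => η (f n).1.1) (fun n => hη1 _) (fun n => hη2 _)
        (fun n => ih (f n).1.1 (f n).1.2 (isOpen_of_mem_countableBasis (f n).2.1))

theorem h4 (k1 : S_H1) (k2 : S_H2) : S_H4 := by
  intro Z W _ _ _ _ ξ A h
  have := h4_aux k1 k2 Z W ξ A h univ isOpen_univ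
  simpa only [inter_univ] using this

end Pool.Agent.Q238.BH
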